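import Pool.Agent.V1157.RE.Main

/-!
# Künneth projectors which are algebraic up to errors of bounded rank are algebraic

Let `H` be a Weil cohomology with coefficient field `K` of characteristic zero, fix a dimension `n`
and a function `lam` from the integers to `K`. Suppose that on every variety `X` of dimension `n` the
operator `ν` on `H(X)` which multiplies `H^l(X)` by `lam l` is the sum of a `K`-linear combination of
algebraic correspondences and of a linear map of rank at most `D`. Then on all these varieties it is
a `K`-linear combination of algebraic correspondences. This applies to the Künneth projectors and to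
the sign operator.

Proof: let `V` be a complete intersection in `S^N` of dimension `n = dim S`, with projections `p_j` to
`S`, and let `ν = Γ + E` on `V`, `E` of rank at most `D`. The blocks `(p_l)_* E (p_j)^*` are
`(p_l)_* (p_j)^* ν - (p_l)_* Γ (p_j)^*`; so modulo algebraic operators they are zero for `l ≠ j` and
a non-zero multiple of `ν` for `l = j`. If `ν` is not algebraic on `S`, then the `N` restrictions of the
maps `(p_l)_*` to the image of `E` are linearly independent, and so `N` is at most `D` times the
dimension of `H(S)`.
-/

open CategoryTheory AlgebraicGeometry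

universe u v w

namespace Pool.Agent.Results.MP_4ca46c_ag.BoundedRankErrors

open Pool.Agent.H914 Pool.Agent.H914.VarClass Pool.Agent.H914.VarClass.Obj Pool.Agent.W492.BB
  Pool.Agent.TH133 Pool.Agent.V1157.BD Pool.Agent.V1157.RE

theorem result {k : Type u} [Field k] {𝒱 : VarClass k} {C : TheoryData.{u, v, 0} 𝒱 ℚ}
    [IsChowProj C] {K : Type w} [Field K] [CharZero K] (H : WeilTheoryData.{u, v, w} C K)
    [IsWeilProj H] (lam : ℤ → K) (n : ℕ) (hfin : ∀ X : 𝒱.Obj, Module.Finite K (H.A X))
    (hP : ∀ (S : 𝒱.Obj) (N : ℕ), S.dim = n → HasPower C n N S) :
    GradedAlgebraic H lam n ↔ ∃ D, GradedUpToRank H lam n D :=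
  ⟨fun h => ⟨0, rank_of_algebraic h⟩, fun ⟨_, hD⟩ => algebraic_of_rank hfin hP hD⟩

end Pool.Agent.Results.MP_4ca46c_ag.BoundedRankErrors
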