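import Pool.Agent.H447R3.KuB

/-!
# The Kunneth conjecture up to numerical equivalence
-/

set_option autoImplicit false

open Pool.Agent.H914 Pool.Agent.H914.VarClass Pool.Agent.H914.VarClass.Obj
  Pool.Agent.H914.WeilCohomology Pool.Agent.H447

universe u v

namespace Pool.Agent.Results.MP_4ca46c_ag.NumericalProjectors

/-- **The Kunneth conjecture up to numerical equivalence.** The Kunneth components of the diagonal
of `X` are algebraic if and only if there are cycles `z i` which have the same intersection numbers
with all cycles as the Kunneth components, and which are orthogonal projectors up to numerical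
equivalence. -/
theorem result {k : Type u} [Field k] {𝒱 : VarClass k} {ops : CycleOps 𝒱}
    (W : WeilCohomology.{u, v} ops) (X : 𝒱.Obj) : KunnethStd W X ↔ KunnethNum W X :=
  kunneth_iff_num

end Pool.Agent.Results.MP_4ca46c_ag.NumericalProjectors
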