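import Pool.Agent.TH133.PW.Kun

/-!
# One cycle with rational coefficients for all `ℓ` from the separation of single classes for one `ℓ`

Let `𝒲` be a nonempty class of Weil cohomology theories for which every cycle of codimension
`n = dim X` on `X × X` has the same rational trace on `H^j(X)` for all theories in `𝒲`, for all `j`.
(For the `ℓ`-adic theories, `ℓ` different from the characteristic, this is known: comparison
theorems in characteristic zero; the Riemann hypothesis of Deligne and the theorem of Katz and
Messing, after specialisation to a finite field, in positive characteristic.) The following are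
equivalent:

* ONE cycle of codimension `n` on `X × X` with RATIONAL coefficients induces the projector onto
  `H^i(X)` for ALL theories in `𝒲`;
* for ONE theory in `𝒲`, with coefficient field `K`, and all `y` in `H^i(X)` and `y'` in `H^j(X)`,
  `j ≠ i`, some `K`-combination `φ` of algebraic correspondences, which may depend on `y` and `y'`,
  has `φ(y) = y` and `φ(y') = 0`;
* for one theory in `𝒲`, `tr(y w) = 0` whenever `y × w + y' × w'` is orthogonal to all algebraic
  cycles of codimension `n` on `X × X` (`y`, `w`, `y'`, `w'` of degrees `i`, `2n - i`, `j`, `2n - j`,
  `j ≠ i`);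
* for one theory in `𝒲`, every subspace of `H(X)` stable under the algebraic correspondences of
  degree zero is stable under the projector onto `H^i(X)`.
-/

open Pool.Agent.H914 Pool.Agent.H914.VarClass Pool.Agent.H914.VarClass.Obj
  Pool.Agent.H914.WeilCohomology Pool.Agent.TH133.PW

universe u v

namespace Pool.Agent.Results.MP_4ca46c_ag.OneTheoryPointwise

/-- **One rational cycle for all theories from single classes for one theory.** -/
theorem result {k : Type u} [Field k] {𝒱 : VarClass k} {ops : CycleOps 𝒱} (X : 𝒱.Obj)
    (𝒲 : Set (WeilCohomology.{u, v} ops)) (hne : 𝒲.Nonempty) (h𝒲 : SameTracesAll 𝒲 X) (i : ℕ) :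
    [OneProjectorForAll 𝒲 X i, SeparatesForOne 𝒲 X i, DetectsForOne 𝒲 X i,
      SplitForOne 𝒲 X i].TFAE :=
  kunneth_one_tfae hne h𝒲 i

end Pool.Agent.Results.MP_4ca46c_ag.OneTheoryPointwise
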