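import Pool.Agent.V11106.SH.Kun

/-!
# One rational Künneth projector for all `ℓ` from errors of small rank for one `ℓ`

Let `𝒲` be a set of Weil cohomology theories on a class of varieties closed under products, such that
for all varieties the traces of algebraic cycles on the cohomology in each degree are rational
numbers which are the same for all theories in `𝒲` (for the `ℓ`-adic theories of varieties over an
algebraically closed field: by specialisation and the theorem of Deligne, or by comparison). Let `W`
be ONE theory in `𝒲` for which the class contains, for every `N`, a surface with algebraic cohomology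
and `N` independent divisor classes (a blow-up of the projective plane).

**Fixed dimension and degree.** If for `W` on the varieties `Y` of dimension `n + 2` the projector
onto `H^(i + 2)(Y)` is a combination, with coefficients in the field of coefficients of `W`, of
algebraic correspondences up to errors whose rank is `o(b)`, where `b` is the sum of the Betti
numbers of `Y`, then for all `X` of dimension `n` ONE cycle with rational coefficients on `X × X`
induces the projector onto `H^i(X)` for ALL theories in `𝒲`.

**All dimensions.** Hence the existence of these cycles for all `X` and `i` is equivalent to errors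
whose rank is bounded for each dimension and degree, for `W`, and to errors of rank `o(b)`, for `W`.
-/

open CategoryTheory AlgebraicGeometry

universe u v

namespace Pool.Agent.Results.MP_4ca46c_ag.SublinearDefects

open Pool.Agent.H914 VarClass Obj WeilCohomology Pool.Agent.TH133.PW Pool.Agent.V11106.LB
  Pool.Agent.V11106.SH

variable {k : Type u} [Field k] {𝒱 : VarClass k} {ops : CycleOps 𝒱}

/-- For all varieties `X` of dimension `n` one cycle with rational coefficients on `X × X` induces
the projector onto `H^i(X)` for all theories in `𝒲`. -/
def OneProjectorInDimension (𝒲 : Set (WeilCohomology.{u, v} ops)) (n i : ℕ) : Prop :=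
  ∀ X : 𝒱.Obj, X.dim = n → OneProjectorForAll 𝒲 X i

theorem result (𝒲 : Set (WeilCohomology.{u, v} ops)) (h𝒲 : ∀ X : 𝒱.Obj, SameTracesAll 𝒲 X)
    (W : WeilCohomology.{u, v} ops) (hW : W ∈ 𝒲) (hT : HasRationalSurfaces W) :
    (∀ n i : ℕ, ProjectorUpToSublinear W (n + 2) (i + 2) → OneProjectorInDimension 𝒲 n i) ∧
    [∀ n i : ℕ, OneProjectorInDimension 𝒲 n i, ∀ n i : ℕ, ProjectorUpToBounded W n i,
      ∀ n i : ℕ, ProjectorUpToSublinear W n i].TFAE := by
  have h1 : ∀ n i : ℕ, ProjectorUpToSublinear W (n + 2) (i + 2) →
      OneProjectorInDimension 𝒲 n i :=
    fun n i h X hX => oneProjector_of_sublinear hT hW h hX (h𝒲 X)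
  refine ⟨h1, ?_⟩
  tfae_have 1 → 2 := by
    intro h n i
    refine projectorUpToBounded_of_exact fun X hX => ?_
    obtain ⟨P, hP, hP'⟩ := h n i X hX
    exact ⟨_, Submodule.subset_span ⟨P, hP, rfl⟩, hP' W hW⟩
  tfae_have 2 → 3 := fun h n i => projectorUpToSublinear_of_bounded (h n i)
  tfae_have 3 → 1 := fun h n i => h1 n i (h (n + 2) (i + 2))
  tfae_finish

end Pool.Agent.Results.MP_4ca46c_ag.SublinearDefects
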